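import Pool.Agent.L0h7.MS.Stm3

/-! # MP_65b575_al, project MS: wreath products of finitely presented groups with finite groups -/

set_option autoImplicit false

open Function

noncomputable section

namespace Pool.Agent.L0h25.MS

open Pool.Agent.L0h7.MS

/-- the base group of the wreath product -/
def baseEquiv (G Q : Type) [Group G] [Group Q] (m : ℕ) (e : Q ≃ Fin m) :
    (RegularWreathProduct.rightHom (D := G) (Q := Q)).ker ≃* (Fin m → G) where
  toFun x := fun i => x.1.left (e.symm i)
  invFun f := ⟨⟨fun q => f (e q), 1⟩, rfl⟩
  left_inv x := by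
    obtain ⟨x, hx⟩ := x
    have h1 : x.right = 1 := hx
    apply Subtype.ext
    ext q
    · simp
    · exact h1.symm
  right_inv f := by
    funext i
    simp
  map_mul' x y := by
    obtain ⟨x, hx⟩ := x
    have h1 : x.right = 1 := hx
    funext i
    simp [h1]

theorem t_WFP : S_EXT → S_PRW → S_WFP := by
  intro hE hP G Q _ _ hQ hG
  obtain ⟨m, ⟨e⟩⟩ := Finite.exists_equiv_fin Q
  have h1 : Group.IsFinitelyPresented (Fin m → G) := hP G hG m
  have h2 : Group.IsFinitelyPresented (RegularWreathProduct.rightHom (D := G) (Q := Q)).ker :=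
    h1.equiv (baseEquiv G Q m e).symm
  have hfin : Finite ((RegularWreathProduct.rightHom (D := G) (Q := Q)).range) := inferInstance
  exact hE (RegularWreathProduct G Q) (RegularWreathProduct.rightHom (D := G) (Q := Q)).ker inferInstance
    (Subgroup.finiteIndex_ker _) h2

end Pool.Agent.L0h25.MS
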